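import Pool.Agent.Q173.KS.Stm

/-!
Project KS (helper173), job FIX: lists which do not touch `Y` preserve the invariance on `Y`.
-/

set_option autoImplicit false

namespace Pool.Agent.Q153.KS

open Pool.Agent.Q173.KS Finset

theorem fix : S_FIX := by
  intro α _ k Y Φ ℓ hY hΦ S S' hS h1 h2
  unfold ES
  refine EP_congr_fix (Y := (Y : Set α)) (fun o ho => by
    have h := hY o ho
    exact ⟨fun h3 => h.1 (Finset.mem_coe.1 h3), fun h3 => h.2 (Finset.mem_coe.1 h3)⟩) ?_
  intro σ hσ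
  have hs : ∀ y ∈ Y, σ.symm y = y := by
    intro y hy
    rw [Equiv.symm_apply_eq]
    exact (hσ y (Finset.mem_coe.2 hy)).symm
  have hn : ∀ x, x ∉ Y → σ.symm x ∉ Y := by
    intro x hx h
    have h3 := hσ _ (Finset.mem_coe.2 h)
    rw [Equiv.apply_symm_apply] at h3
    rw [← h3] at h
    exact hx h
  have hc : ∀ S₀ : Finset α, (S₀.map σ.toEmbedding) ∩ Y = S₀ ∩ Y := by
    intro S₀
    ext x
    rw [Finset.mem_inter, Finset.mem_inter, Finset.mem_map_equiv]
    constructor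
    · rintro ⟨h3, h4⟩
      rw [hs x h4] at h3
      exact ⟨h3, h4⟩
    · rintro ⟨h3, h4⟩
      rw [hs x h4]
      exact ⟨h3, h4⟩
  refine hΦ _ _ (by rwa [Finset.card_map]) ?_ (by rw [hc, hc]; exact h2)
  ext x
  rw [Finset.mem_sdiff, Finset.mem_sdiff, Finset.mem_map_equiv, Finset.mem_map_equiv]
  refine and_congr_left fun hx => ?_
  have h3 := Finset.ext_iff.1 h1 (σ.symm x)
  rw [Finset.mem_sdiff, Finset.mem_sdiff] at h3
  have h4 := hn x hx
  constructor
  · intro h5
    exact (h3.1 ⟨h5, h4⟩).1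
  · intro h5
    exact (h3.2 ⟨h5, h4⟩).1

end Pool.Agent.Q153.KS
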